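import Pool.Agent.U536.CF.TU
import Pool.Agent.Results.MP_12eca1_ag.MultiplicativeValues

/-!
# The period conjecture relative to spaces of constants at tuples of integers with large common factors with the values of multiplicative functions

Let `F_1, ..., F_k` be positive multiplicative functions of at most polynomial growth such that `F_i p ≤ M p` for the
large primes `p`, with different values at different large primes; for example Euler's function or the sum of the
divisors. Let `b < 1` and `0 ≤ c < 2 b - 1`. Let `f_1, …, f_k ∈ ℚ[X]` be monic of even degree `n` with distinct real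
roots, all different from `0`, and `V` any `ℚ`-space of complex numbers of dimension at most `D`. For all tuples `m` in
`[1, N]^k` but `N^k exp (-(log N)^c)`, for EVERY tuple `w` of integers `w_i ≥ exp ((log N)^b)` such that `gcd(w_i,
F_i(m_i)) ≥ w_j^ρ` for all `i`, `j`, the `1 / w_j` are in the same gaps of the roots of `f_j` as `0`, the period matrices
of the curves `y² = f_j(x) (x - 1/w_j)` are on the torsor `Fibre`, and every polynomial of degree `≤ d` with coefficients
in `V` which vanishes at the period matrices vanishes on the torsor (`Surplus`); `ρ < 1` depends only on the `f_j`, `D`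
and `d`, and the bound `N ≥ N₀` does not depend on `V`; moreover `D = d = ω(N)` may tend to infinity with `N`, with `ρ =
ρ(ω(N))`. The tuples `w` include all tuples of large divisors `w_i` of the `F_i(m_i)` of comparable size and their
multiples by small integers.

Proof. But for few exceptional `m_i ≤ N`, the number of `m_i` with `g ∣ F_i(m_i)` is at most `N τ_J(g) / g` up to a factor
`exp ((log N)^s)`, `J = (log N)^a`, `a < s < b`, for all `g`: write `m_i = k u` with `u` squarefree and composed of primes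
larger than `N^(1/J)`, `k ≤ exp (4 (log N)^a)`. If `w` is an exceptional tuple with `w_i ≤ X`, then the `g_i = gcd(w_i,
F_i(m_i))` are divisors of the `w_i` of size `≥ (X/2)^ρ`; there are few such tuples of divisors, and the inequality `τ_J^q
≤ τ_K` for `K ≥ J^q` with Hölder's inequality for tuples bounds the sum of `∏ τ_J(g_i) / g_i`. The file
`MultiplicativeValues` of the starting library treats the tuples `w = (F_i(m_i))` only, with `N^k / (log N)^U` exceptions.
-/

set_option autoImplicit false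

namespace Pool.Agent.Results.MP_12eca1_ag.CommonFactors

open Polynomial
open Pool.Agent.Results.MP_12eca1_ag.RelativeHyperelliptic (branch period Fibre entries)
open Pool.Agent.N733.TG (LM lm_totient lm_sigma)
open Pool.Agent.U536.CF (CommonT avoidT commonT_of_dvd exists_rho)
open Pool.Agent.Results.MP_12eca1_ag.MultiplicativeValues (Surplus)

/-- bounded degree and dimension -/
lemma bounded {n k : ℕ} (hk : 1 ≤ k) (hn : Even n) (a : Fin k → Fin n → ℝ) (f : Fin k → ℚ[X])
    (hf : ∀ j, (f j).map (algebraMap ℚ ℝ) = ∏ i, (X - C (a j i))) (q : Fin k → Fin (n + 1))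
    (h0 : ∀ j, StrictMono (branch (a j) (q j) 0)) (D d : ℕ) :
    ∃ ρ : ℝ, 0 < ρ ∧ ρ < 1 ∧ ∀ F : Fin k → ℕ → ℕ, (∀ j, LM (F j)) →
      ∀ b c : ℝ, b < 1 → 0 ≤ c → c < 2 * b - 1 → ∃ N₀ : ℕ, ∀ N : ℕ, N₀ ≤ N → ∀ V : Submodule ℚ ℂ,
      Module.Finite ℚ V → Module.finrank ℚ V ≤ D →
      ({m : Fin k → ℕ | (∀ j, 1 ≤ m j ∧ m j ≤ N) ∧ ¬ ∀ w : Fin k → ℕ, CommonT F b ρ N m w →
        Surplus a f q d V w}.ncard : ℝ) ≤ (N : ℝ) ^ k * Real.exp (-(Real.log N ^ c)) := by
  obtain ⟨c, M, hc, hmain⟩ := Pool.Agent.Results.MP_12eca1_ag.RelativeHyperelliptic.result hn a f hf q h0 D d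
  obtain ⟨ρ, hρ0, hρ1, hρ⟩ := exists_rho hk hc
  refine ⟨ρ, hρ0, hρ1, fun F hF b c₁ hb hc₁ hcb => ?_⟩
  obtain ⟨N₀, hN₀⟩ := avoidT hk hF hρ0 hρ1.le hρ M hb hc₁ hcb
  refine ⟨N₀, fun N hN V hV hVD => ?_⟩
  refine le_trans (le_of_eq ?_) (hN₀ N hN {t | ¬ Surplus a f q d V t} (fun T hT => by
    obtain ⟨S, hS1, hS2⟩ := hmain V hV hVD T hT
    refine le_trans ?_ hS1
    have h2 : {w : Fin k → ℕ | (∀ i, 2 ≤ w i ∧ w i ≤ T) ∧ w ∈ {t | ¬ Surplus a f q d V t}} ⊆ (S : Set (Fin k → ℕ)) := by
      rintro w ⟨h3, h4⟩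
      by_contra h5
      exact h4 (hS2 w (fun j => ⟨by have := (h3 j).1; omega, (h3 j).2⟩) h5)
    have h3 := Set.ncard_le_ncard h2 S.finite_toSet
    rw [Set.ncard_coe_finset] at h3
    exact_mod_cast h3))
  congr 2
  ext m
  simp only [Set.mem_ofPred_eq]
  refine and_congr Iff.rfl ⟨?_, ?_⟩
  · intro h
    by_contra hcon
    exact h (fun w hw => by_contra (fun h2 => hcon ⟨w, h2, hw⟩))
  · rintro ⟨w, h1, h2⟩ h3
    exact h1 (h3 w h2)

/-- **The period conjecture relative to spaces of constants at tuples of integers with large common factors with the values of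
multiplicative functions.** Let `f_1, …, f_k ∈ ℚ[X]` be monic of even degree `n` with distinct real roots, all different
from `0`, and `V` any `ℚ`-space of complex numbers of dimension at most `D`. Let the `F_i` be multiplicative and positive,
of at most polynomial growth, with `F_i p ≤ M p` at the large primes, and injective there. Let `b < 1` and `0 ≤ c < 2 b -
1`. For all large `N`, for all tuples `m` in `[1, N]^k` but `N^k exp (-(log N)^c)`, for EVERY tuple `w` of integers `w_i ≥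
exp ((log N)^b)` with `gcd(w_i, F_i(m_i)) ≥ w_j^ρ` for all `i`, `j`, the `1 / w_j` are in the same gaps of the roots of
`f_j` as `0`, the period matrices of the curves `y² = f_j(x) (x - 1/w_j)` are on the torsor `Fibre`, and every polynomial
of degree `≤ d` with coefficients in `V` which vanishes at the period matrices vanishes on the torsor (`Surplus`); `ρ < 1`
depends only on the `f_j`, `D` and `d`, and the bound `N ≥ N₀` does not depend on `V`; moreover `D = d = ω(N)` may tend to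
infinity with `N`, with `ρ = ρ(ω(N))`. Tuples of divisors `w_i ≥ exp ((log N)^b)` of the `F_i(m_i)` with `w_j^ρ ≤ w_i` for
all `i`, `j` are such tuples. Euler's function and the sum of the divisors are examples of the `F_i`. -/
theorem result :
    (∀ (n k : ℕ), 1 ≤ k → Even n → ∀ (a : Fin k → Fin n → ℝ) (f : Fin k → ℚ[X]),
      (∀ j, (f j).map (algebraMap ℚ ℝ) = ∏ i, (X - C (a j i))) → ∀ q : Fin k → Fin (n + 1),
      (∀ j, StrictMono (branch (a j) (q j) 0)) →
      (∀ D d : ℕ, ∃ ρ : ℝ, 0 < ρ ∧ ρ < 1 ∧ ∀ F : Fin k → ℕ → ℕ, (∀ j, LM (F j)) →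
        ∀ b c : ℝ, b < 1 → 0 ≤ c → c < 2 * b - 1 → ∃ N₀ : ℕ, ∀ N : ℕ, N₀ ≤ N → ∀ V : Submodule ℚ ℂ,
        Module.Finite ℚ V → Module.finrank ℚ V ≤ D →
        ({m : Fin k → ℕ | (∀ j, 1 ≤ m j ∧ m j ≤ N) ∧ ¬ ∀ w : Fin k → ℕ, CommonT F b ρ N m w →
          Surplus a f q d V w}.ncard : ℝ) ≤ (N : ℝ) ^ k * Real.exp (-(Real.log N ^ c))) ∧
      ∃ ρ : ℕ → ℝ, (∀ r, 0 < ρ r ∧ ρ r < 1) ∧ ∀ F : Fin k → ℕ → ℕ, (∀ j, LM (F j)) →
        ∀ b c : ℝ, b < 1 → 0 ≤ c → c < 2 * b - 1 → ∃ ω : ℕ → ℕ, Filter.Tendsto ω Filter.atTop Filter.atTop ∧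
        ∃ N₀ : ℕ, ∀ N : ℕ, N₀ ≤ N → ∀ V : Submodule ℚ ℂ, Module.Finite ℚ V → Module.finrank ℚ V ≤ ω N →
        ({m : Fin k → ℕ | (∀ j, 1 ≤ m j ∧ m j ≤ N) ∧ ¬ ∀ w : Fin k → ℕ, CommonT F b (ρ (ω N)) N m w →
          Surplus a f q (ω N) V w}.ncard : ℝ) ≤ (N : ℝ) ^ k * Real.exp (-(Real.log N ^ c))) ∧
    (LM Nat.totient ∧ LM (fun m => ∑ d ∈ m.divisors, d)) ∧
    ∀ (k : ℕ) (F : Fin k → ℕ → ℕ) (b ρ : ℝ) (N : ℕ) (m w : Fin k → ℕ), (∀ i, Real.exp (Real.log N ^ b) ≤ (w i : ℝ)) →
      (∀ i, w i ∣ F i (m i)) → (∀ i j, (w j : ℝ) ^ ρ ≤ (w i : ℝ)) → CommonT F b ρ N m w := by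
  refine ⟨?_, ⟨lm_totient, lm_sigma⟩, fun k F b ρ N m w h1 h2 h3 => commonT_of_dvd h1 h2 h3⟩
  classical
  intro n k hk hn a f hf q h0
  refine ⟨fun D d => bounded hk hn a f hf q h0 D d, ?_⟩
  have h1 := fun r : ℕ => bounded hk hn a f hf q h0 r r
  choose ρ hρ0 hρ1 h2 using h1
  refine ⟨ρ, fun r => ⟨hρ0 r, hρ1 r⟩, fun F hF b c hb hc hcb => ?_⟩
  choose N₀ hN₀ using fun r : ℕ => h2 r F hF b c hb hc hcb
  refine ⟨fun N => Nat.findGreatest (fun r => N₀ r ≤ N) N, ?_, N₀ 0, fun N hN V hV hVD => ?_⟩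
  · rw [Filter.tendsto_atTop]
    intro R
    filter_upwards [Filter.eventually_ge_atTop (max R (N₀ R))] with N hN
    exact Nat.le_findGreatest ((le_max_left _ _).trans hN) ((le_max_right _ _).trans hN)
  · exact hN₀ _ N (Nat.findGreatest_spec (P := fun r => N₀ r ≤ N) (Nat.zero_le N) hN) V hV hVD

end Pool.Agent.Results.MP_12eca1_ag.CommonFactors
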