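import Pool.Agent.U554.TW.Ab
import Pool.Agent.U554.TW.Bil

/-!
# The period conjecture for all Nori motives and the cubics `T(x, y, z) = 1`

Let `k` be a field with an embedding `ι` into `ℂ`.

* `𝓜` is Nori's category of mixed motives over `(k, ι)`, an abelian category. For a motive `M` let
  `per M` be the field generated over `ι(k)` by the periods of `M`, a subfield of `ℂ`, and `dim M` the
  dimension of the motivic Galois group `G_mot(M, ι)`.
* `PeriodConjecture per dim M` is the assertion `trdeg_ℚ k(periods of M) ≥ dim G_mot(M, ι)` of the problem.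
* `O b m X`, for the separated schemes `X` of finite type over `k`, is the motive `H_{m + 2 b}(X)(-b)`
  (Borel-Moore homology); for `X` smooth of pure dimension `d` this is the motive `H^{2 j - m}(X)(j)`,
  `j = d - b`.

`IsNori` lists the known properties which are used. Let `T` be a trilinear form in three blocks
`x`, `y`, `z` of `a₁`, `a₂`, `a₃` variables.

* `bilS T` is the closed subvariety `Z_T` of `𝔸^(a₂ + a₃)` given by the `a₁` bilinear equations
  `∂T/∂x_i (y, z) = 0`;
* `hypS T` is the smooth affine hypersurface `Y_T : T(x, y, z) = 1` of dimension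
  `d = a₁ + a₂ + a₃ - 1`; `O (d - j) n (hypS T)` is the motive `H^{2 j - n}(Y_T)(j)`.
-/

set_option autoImplicit false

open CategoryTheory AlgebraicGeometry MvPolynomial Pool.Agent.Y116.UV Pool.Agent.U554.TU
  Pool.Agent.U554.TW Cardinal

universe v u

namespace Pool.Agent.Results.MP_12eca1_ag.CubicHypersurfaces

section

variable {𝓜 : Type u} [Category.{v} 𝓜] [Abelian 𝓜]

/-- `N` is a subquotient of `M`. -/
def IsSubquotient (N M : 𝓜) : Prop := ∃ (L : 𝓜) (i : L ⟶ M) (p : L ⟶ N), Mono i ∧ Epi p

variable (per : 𝓜 → IntermediateField ℚ ℂ) (dim : 𝓜 → ℕ)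

/-- The transcendence degree of the field of periods is at least the dimension of the motivic Galois
group. -/
def PeriodConjecture (M : 𝓜) : Prop := (dim M : Cardinal) ≤ Algebra.trdeg ℚ (per M)

/-- The known properties of Nori motives, their periods and motivic Galois groups: the Borel-Moore
homology has the properties `IsAbTheory` (long exact sequences, homotopy invariance, ...) and

* `torsor`: homotopy invariance for affine bundles;
* `jouanolou`: smooth separated schemes of finite type have affine bundles with affine total space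
  (Jouanolou, Thomason);
* `boundary`: `H_{m + 2 b}(X)(-b)` is a direct factor of `H_{m + 1 + 2 b}(X × 𝔾_m)(-b)` (product with the
  class of the coordinate, boundary at `0`);
* `subquotient`: if `N` is a subquotient of `M`, then the periods of `N` are in the field of periods of
  `M`; the torsor of periods of `M` is mapped onto the one of `N`, with fibres of dimension
  `dim M - dim N`, and the fibre which contains the period point of `M` is defined over the field of
  periods of `N`; so the transcendence degree of `per M` over `per N` is at most `dim M - dim N`;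
* `generated`: every Nori motive is a subquotient of a motive `H^i(X)(j)`, `X` smooth over `k`. (By Nori
  and resolution of singularities every motive is a subquotient of `H^i(X, Y)(j)`, `X` smooth and `Y` a
  divisor with strict normal crossings with components `Y_1, …, Y_r`, given by sections `f_l` of line
  bundles; then `H^i(X, Y)(-r)` is a direct factor of `H^{i + r}(M)` for the smooth variety
  `M : u_l t_l = f_l(x)`, `l ≤ r`, over `X`, since the direct image of `ℚ` under the projection of
  `u t = f` to `X` is the sum of `ℚ` and of the extension by zero of `ℚ(-1)[-1]` from `f ≠ 0`.) -/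
structure IsNori {k : Type} [Field k] (O : ℤ → ℤ → Sch k → 𝓜) : Prop extends IsAbTheory O where
  torsor : BundleInvariant (abRel 𝓜) O
  jouanolou : ∀ X : Sch k, FT True X → Smooth X.hom → HasAffineBundle X
  boundary : ∀ (A : Type) [CommRing A] [Algebra k A] [Algebra.FiniteType k A] (b m : ℤ),
    Nonempty (Retract (O b m (aff k A)) (O b (m + 1) (aff k (LaurentPolynomial A))))
  subquotient : ∀ N M : 𝓜, IsSubquotient N M → dim N ≤ dim M ∧ ∃ h : per N ≤ per M,
    Algebra.trdeg (per N) (IntermediateField.extendScalars h) ≤ ((dim M - dim N : ℕ) : Cardinal)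
  generated : ∀ M : 𝓜, ∃ (X : Sch k) (b m : ℤ), FT True X ∧ Smooth X.hom ∧
    IsSubquotient M (O b m X)

variable {per dim} {k : Type} [Field k] {O : ℤ → ℤ → Sch k → 𝓜}

/-- The period conjecture passes to subquotients. -/
lemma of_subquotient (hO : IsNori per dim O) {N M : 𝓜} (h : IsSubquotient N M)
    (hM : PeriodConjecture per dim M) : PeriodConjecture per dim N := by
  obtain ⟨h1, h2, h3⟩ := hO.subquotient N M h
  have h4 : Algebra.trdeg ℚ (per N) + Algebra.trdeg (per N) (IntermediateField.extendScalars h2) =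
      Algebra.trdeg ℚ (IntermediateField.extendScalars h2) := trdeg_add_eq _ _
  have h5 : Algebra.trdeg ℚ (IntermediateField.extendScalars h2) = Algebra.trdeg ℚ (per M) := rfl
  have h6 : (dim M : Cardinal) ≤ Algebra.trdeg ℚ (per N) + ((dim M - dim N : ℕ) : Cardinal) := by
    refine hM.trans ?_
    rw [← h5, ← h4]
    exact add_le_add le_rfl h3
  unfold PeriodConjecture
  rcases lt_or_ge (Algebra.trdeg ℚ (per N)) ℵ₀ with h7 | h7
  · obtain ⟨t, ht⟩ := Cardinal.lt_aleph0.mp h7
    rw [ht] at h6 ⊢
    have h8 : dim M ≤ t + (dim M - dim N) := by exact_mod_cast h6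
    exact_mod_cast (by omega : dim N ≤ t)
  · exact (Cardinal.natCast_le_aleph0).trans h7

lemma inherited (hO : IsNori per dim O) : Inherited (abRel 𝓜) (PeriodConjecture per dim) := by
  rintro X Y ⟨r⟩ hY
  refine of_subquotient hO ⟨X, r.i, 𝟙 X, ?_, inferInstance⟩ hY
  have : Mono (r.i ≫ r.r) := by
    rw [r.retract]
    infer_instance
  exact mono_of_mono r.i r.r

/-- The period conjecture for the motives of the affine schemes passes to the lower degrees. -/
lemma descend (hO : IsNori per dim O) (d : ℕ) (m : ℤ)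
    (h : ∀ (A : Type) [CommRing A] [Algebra k A] [Algebra.FiniteType k A] (b : ℤ),
      PeriodConjecture per dim (O b (m + d) (aff k A))) :
    ∀ (A : Type) [CommRing A] [Algebra k A] [Algebra.FiniteType k A] (b : ℤ),
      PeriodConjecture per dim (O b m (aff k A)) := by
  induction d with
  | zero => simpa using h
  | succ d ih =>
    apply ih
    intro A _ _ _ b
    have h2 := hO.boundary A b (m + d)
    have h3 : Algebra.FiniteType k (LaurentPolynomial A) := ft_laurent A
    have h4 := h (LaurentPolynomial A) b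
    rw [show m + ((d + 1 : ℕ) : ℤ) = m + d + 1 from by push_cast; ring] at h4
    exact inherited hO _ _ h2 h4

/-- From the affine schemes to all motives. -/
lemma all_motives (hO : IsNori per dim O) (S : Set ℤ) (hS : ∀ N : ℤ, ∃ n ∈ S, N ≤ n)
    (h : ∀ n ∈ S, ∀ (A : Type) [CommRing A] [Algebra k A] [Algebra.FiniteType k A] (b : ℤ),
      PeriodConjecture per dim (O b (n - 1) (aff k A))) (M : 𝓜) : PeriodConjecture per dim M := by
  obtain ⟨X, b, m, hX, hs, hM⟩ := hO.generated M
  refine of_subquotient hO hM ?_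
  refine bundle_of_affine hO.torsor (inherited hO) m ?_ X hX (hO.jouanolou X hX hs) b
  obtain ⟨n, hn, hm⟩ := hS (m + 1)
  exact descend hO (n - 1 - m).toNat m fun A _ _ _ b => by
    rw [show m + ((n - 1 - m).toNat : ℤ) = n - 1 from by omega]
    exact h n hn A b

end

/-- **The period conjecture for all Nori motives and the cubic hypersurfaces `T(x, y, z) = 1`.** Let
`ι : k → ℂ` be an embedding of a field, `𝓜` the category of Nori motives over `(k, ι)`, `per M` and
`dim M` the field of periods and the dimension of the motivic Galois group of `M`, and let `O b m X` have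
the known properties of the motives `H_{m + 2 b}(X)(-b)`. Let `S` be a set of integers which is not bounded
above, and `s` a number. The following assertions are equivalent:
* (Q1 for `k` and `ι`) `trdeg_ℚ k(periods of M) ≥ dim G_mot(M)` for all Nori motives `M` over `k`;
* the same for the motives `H_{n + 2 b}(Z_T)(-b)` for all `b`, all `n` in `S` and all closed subvarieties
  `Z_T` of affine spaces which are given by a finite number of bilinear equations;
* the same for the motives `H^{2 j - n}(Y_T)(j)` for all trilinear forms `T` over `k`, all `j ≥ s` and all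
  `n` in `S`.
If `k = ℚ`, the bilinear equations with coefficients `0` and `1` are sufficient in the second assertion,
and the hypersurfaces `∑_{(i, j, k) ∈ H} x_i y_j z_k = 1`, `H` a finite set of triples, in the last
one. -/
theorem result (k : Type) [Field k] (_ι : k →+* ℂ) {𝓜 : Type u} [Category.{v} 𝓜] [Abelian 𝓜]
    (per : 𝓜 → IntermediateField ℚ ℂ) (dim : 𝓜 → ℕ) (O : ℤ → ℤ → Sch k → 𝓜)
    (hO : IsNori per dim O) (S : Set ℤ) (hS : ∀ N : ℤ, ∃ n ∈ S, N ≤ n) (s : ℕ) :
    List.TFAE [
      ∀ M : 𝓜, PeriodConjecture per dim M,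
      ∀ (a₁ a₂ a₃ : ℕ) (T : Fin a₁ → Fin a₂ → Fin a₃ → k) (b : ℤ), ∀ n ∈ S,
        PeriodConjecture per dim (O b n (bilS T)),
      ∀ (a₁ a₂ a₃ : ℕ) (T : Fin a₁ → Fin a₂ → Fin a₃ → k) (j : ℕ), s ≤ j → ∀ n ∈ S,
        PeriodConjecture per dim (O (a₁ + a₂ + a₃ - 1 - j) n (hypS T))] ∧
    (Nonempty (ℚ ≃+* k) →
      List.TFAE [
        ∀ M : 𝓜, PeriodConjecture per dim M,
        ∀ (a₁ a₂ a₃ : ℕ) (T : Fin a₁ → Fin a₂ → Fin a₃ → k),
          (∀ i j l, T i j l = 0 ∨ T i j l = 1) → ∀ b : ℤ, ∀ n ∈ S,
            PeriodConjecture per dim (O b n (bilS T)),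
        ∀ (a₁ a₂ a₃ : ℕ) (H : Finset (Fin a₁ × Fin a₂ × Fin a₃)) (j : ℕ), s ≤ j → ∀ n ∈ S,
          PeriodConjecture per dim (O (a₁ + a₂ + a₃ - 1 - j) n (tripS k H))]) := by
  have hT := hO.toIsAbTheory.isTheory
  have hI := inherited hO
  have hz : ∀ (C : Set k), 0 ∈ C → 1 ∈ C → Presents C →
      (∀ (a₁ a₂ a₃ : ℕ) (T : Fin a₁ → Fin a₂ → Fin a₃ → k), (∀ i j l, T i j l ∈ C) →
        ∀ b : ℤ, ∀ n ∈ S, PeriodConjecture per dim (O b n (bilS T))) →
      ∀ M : 𝓜, PeriodConjecture per dim M := by
    intro C h0 h1 hC h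
    refine all_motives hO {n | n - 1 ∈ S} ?_ ?_
    · intro N
      obtain ⟨n, hn, hN⟩ := hS N
      exact ⟨n + 1, by simpa using hn, by omega⟩
    · intro n hn A _ _ _ b
      exact affine_of_bil hT hI h0 h1 hC 0 (n - 1)
        (fun a₁ a₂ a₃ T hT' j _ => h a₁ a₂ a₃ T hT' _ _ hn) A b
  have hy : ∀ (C : Set k), 0 ∈ C → 1 ∈ C → Presents C →
      (∀ (a₁ a₂ a₃ : ℕ) (T : Fin a₁ → Fin a₂ → Fin a₃ → k), (∀ i j l, T i j l ∈ C) →
        ∀ j : ℕ, s ≤ j → ∀ n ∈ S,
          PeriodConjecture per dim (O (a₁ + a₂ + a₃ - 1 - j) n (hypS T))) →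
      ∀ M : 𝓜, PeriodConjecture per dim M := by
    intro C h0 h1 hC h
    refine all_motives hO S hS fun n hn A _ _ _ b => ?_
    refine affine_of_hyp hT hI h0 h1 hC s (n - 1) (fun a₁ a₂ a₃ T hT' j hj => ?_) A b
    rw [sub_add_cancel]
    exact h a₁ a₂ a₃ T hT' j hj n hn
  refine ⟨?_, ?_⟩
  · tfae_have 1 → 2 := fun h _ _ _ _ _ _ _ => h _
    tfae_have 1 → 3 := fun h _ _ _ _ _ _ _ _ => h _
    tfae_have 2 → 1 := fun h =>
      hz Set.univ trivial trivial presents_univ fun a₁ a₂ a₃ T _ b => h a₁ a₂ a₃ T b
    tfae_have 3 → 1 := fun h =>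
      hy Set.univ trivial trivial presents_univ fun a₁ a₂ a₃ T _ j hj => h a₁ a₂ a₃ T j hj
    tfae_finish
  · rintro ⟨e⟩
    have hp : Presents ({0, 1} : Set k) := Pool.Agent.Q193.LT.presents_frac fun x => by
      refine ⟨(e.symm x).den, (e.symm x).num, ?_, ?_⟩
      · exact IsUnit.mk0 _ (by
          have h1 : (((e.symm x).den : ℤ) : ℚ) ≠ 0 := by exact_mod_cast (e.symm x).den_ne_zero
          have h2 := (map_ne_zero e).mpr h1
          rwa [map_intCast] at h2)
      · have h1 : (((e.symm x).num : ℤ) : ℚ) = ((e.symm x).den : ℤ) * e.symm x := by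
          push_cast
          rw [mul_comm]
          exact (Rat.mul_den_eq_num (e.symm x)).symm
        have h2 := congrArg e h1
        rwa [map_mul, e.apply_symm_apply, map_intCast, map_intCast] at h2
    tfae_have 1 → 2 := fun h _ _ _ _ _ _ _ _ => h _
    tfae_have 1 → 3 := fun h _ _ _ _ _ _ _ _ => h _
    tfae_have 2 → 1 := fun h =>
      hz {0, 1} (Or.inl rfl) (Or.inr rfl) hp fun a₁ a₂ a₃ T hT' b => h a₁ a₂ a₃ T hT' b
    tfae_have 3 → 1 := fun h =>
      hy {0, 1} (Or.inl rfl) (Or.inr rfl) hp fun a₁ a₂ a₃ T hT' j hj => by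
        obtain ⟨H, hH⟩ := hyp_zero_one T hT'
        rw [hH]
        exact h a₁ a₂ a₃ H j hj
    tfae_finish

end Pool.Agent.Results.MP_12eca1_ag.CubicHypersurfaces
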