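import Pool.Agent.U449.BV.VU
import Pool.Agent.Results.MP_12eca1_ag.RelativeHyperelliptic

/-!
# The relative period conjecture for hyperelliptic curves near the coordinates of polynomials on arbitrary sets

Let `f_1, …, f_N ∈ ℚ[X]` be monic of even degree `n` with distinct real roots, all different from `0`. For a positive
integer `t` let `C_j(t)` be the curve `y² = f_j(x) (x - 1/t)`. For all `D`, `d` there is `c > 0` such that the following holds for
`κ ≥ 0`, `N - c + N κ < δ ≤ N`. Let `p` be a large prime, `f(x, y)` ANY polynomial of bounded degree over the field of `p ^ N` elements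
with a monomial which contains both variables (for example `f = x y`), let `A`, `B` be ARBITRARY subsets of this field with at least
`p ^ δ` elements, and `g`, `h` ARBITRARY functions. For every `ℚ`-subspace `V` of `ℂ` of dimension at most `D`, for all the pairs `(a, b)`
in `A × B`, apart from a proportion of at most `p ^ (-ρ)`, and for ALL tuples `t` of positive integers at a distance of at most `p ^ κ`
from the tuple of the least residues of the `N` coordinates of `f(a, b) + g(a) + h(b)`: the relations of degree `≤ d` with
coefficients in `V` between the periods of the curves `C_j(t_j)` are those which hold on the whole torsor given by the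
polarisations. How large `p` has to be does not depend on `V`. More generally, this holds for the values `F(a, b)` of all vector
functions of two variables with few coincidences (`RareV`), on arbitrary finite sets.

Since the sets and the functions `g` and `h` are arbitrary, the tuples have no arithmetic structure, and a tuple may be
taken by very many pairs. So the number of the exceptions (starting library) does not give the result directly. Proof: the
inequality of Cauchy and Schwarz; for most pairs `a, a'` the difference `F(a, b) - F(a', b)` is small for few `b`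
(`Pool.Agent.U449.BV`).
-/

set_option autoImplicit false

namespace Pool.Agent.Results.MP_12eca1_ag.MixedPolynomials

open Polynomial
open Pool.Agent.U449.BV (RareV OnProductsU on_products_saving coordinates)
open Pool.Agent.Results.MP_12eca1_ag.RelativeHyperelliptic (branch period Fibre entries)

/-- the points `1 / t_j` are in the gap number `m_j` of the roots of `f_j` (that of `0`), the period matrices of the
curves `y² = f_j(x) (x - 1/t_j)` are on the torsor `Fibre`, and every polynomial of degree `≤ d` with coefficients in `V`
which vanishes at the period matrices vanishes on the torsor -/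
def Surplus {n N : ℕ} (a : Fin N → Fin n → ℝ) (f : Fin N → ℚ[X]) (m : Fin N → Fin (n + 1)) (d : ℕ) (V : Submodule ℚ ℂ)
    (t : Fin N → ℕ) : Prop :=
  (∀ j, StrictMono (branch (a j) (m j) (1 / (t j : ℝ)))) ∧
  (fun j => Matrix.of (period (branch (a j) (m j) (1 / (t j : ℝ))))) ∈
    Fibre (n := n) (fun j => f j * (X - C (1 / (t j : ℚ)))) ∧
  ∀ P : MvPolynomial (Fin N × Fin n × Fin n) ℂ, P.totalDegree ≤ d → (∀ s, P.coeff s ∈ V) →
    MvPolynomial.eval (entries fun j => Matrix.of (period (branch (a j) (m j) (1 / (t j : ℝ))))) P = 0 →
    ∀ Y ∈ Fibre (n := n) (fun j => f j * (X - C (1 / (t j : ℚ)))), MvPolynomial.eval (entries Y) P = 0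

/-- ALL tuples `t` of positive integers with `|t_j - x_j| ≤ W` for all `j` satisfy `Surplus`. -/
def Near {n N : ℕ} (a : Fin N → Fin n → ℝ) (f : Fin N → ℚ[X]) (m : Fin N → Fin (n + 1)) (d : ℕ) (V : Submodule ℚ ℂ)
    (W : ℝ) (x : Fin N → ℝ) : Prop :=
  ∀ t : Fin N → ℕ, (∀ j, 1 ≤ t j) → (∀ j, |(t j : ℝ) - x j| ≤ W) → Surplus a f m d V t

/-- **Theorem.** Let `f_j ∈ ℚ[X]`, `j < N`, `N ≥ 1`, be monic of even degree `n` with distinct real roots `a_j`, all different from
`0`; `m_j` is the place of `0` among the roots. For all `D`, `d` there is `c > 0` such that for all `κ ≥ 0` the property `Near`, with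
windows of length `X ^ κ`, holds, uniformly in the `ℚ`-subspace `V` of `ℂ` of dimension at most `D`, for almost all values of vector
functions of two variables with few coincidences, on arbitrary finite sets of at least `X ^ δ` elements, `N - c + N κ < δ ≤ N`
(`OnProductsU`).
The tuples of the least residues modulo `p` of the coordinates (with respect to a basis over the field of `p` elements) of
`f(a, b) + g(a) + h(b)` in a field of `p ^ k` elements are such a function, with `X = p`, for all polynomials `f` over this
field with a monomial which contains both variables, arbitrary functions `g` and `h`, and arbitrary finite subsets. -/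
theorem result :
    (∀ (n N : ℕ), 1 ≤ N → Even n → ∀ (a : Fin N → Fin n → ℝ) (f : Fin N → ℚ[X]),
      (∀ j, (f j).map (algebraMap ℚ ℝ) = ∏ i, (X - C (a j i))) → ∀ m : Fin N → Fin (n + 1),
      (∀ j, StrictMono (branch (a j) (m j) 0)) → ∀ D d' : ℕ, ∃ c : ℝ, 0 < c ∧ ∀ κ : ℝ, 0 ≤ κ →
      OnProductsU N ((N : ℝ) - c + N * κ) κ
        (fun V : {V : Submodule ℚ ℂ // Module.Finite ℚ V ∧ Module.finrank ℚ V ≤ D} => Near a f m d' V.1)) ∧
    ∀ (p : ℕ) [Fact p.Prime] (k : ℕ) (K : Type) [Field K] [Algebra (ZMod p) K] (e : Module.Basis (Fin k) (ZMod p) K)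
      (d : ℕ) (f : MvPolynomial (Fin 2) K), f.totalDegree ≤ d → (∃ m ∈ f.support, m 0 ≠ 0 ∧ m 1 ≠ 0) →
      ∀ (g h : K → K) (A B : Finset K),
        RareV d A B (fun a b i => (((e.repr (MvPolynomial.eval ![a, b] f + g a + h b) i).val : ℕ) : ℝ)) := by
  classical
  refine ⟨fun n N hN hn a f hf m h0 D d => ?_, coordinates⟩
  obtain ⟨c, M, hc, hmain⟩ := RelativeHyperelliptic.result hn a f hf m h0 D d
  have hN1 : (0 : ℝ) < N := by exact_mod_cast hN
  refine ⟨min c N, lt_min hc hN1, fun κ hκ => ?_⟩
  refine (on_products_saving (k := N) 1
    (Ω := {V : Submodule ℚ ℂ // Module.Finite ℚ V ∧ Module.finrank ℚ V ≤ D})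
    (fun V => {t : Fin N → ℕ | ¬ Surplus a f m d V.1 t}) (c := c) (C := M) hκ
    (fun V T hT => ?_)).mono id (fun V W x _ h' t ht1 ht => not_not.1 (h' t ht1 ht))
  obtain ⟨V, hV1, hV⟩ := V
  dsimp only
  obtain ⟨S, hS1, hS2⟩ := hmain V hV1 hV T hT
  refine le_trans ?_ hS1
  have h2 : {w : Fin N → ℕ | (∀ i, 1 ≤ w i ∧ w i ≤ T) ∧ w ∈ {t : Fin N → ℕ | ¬ Surplus a f m d V t}} ⊆
      (S : Set (Fin N → ℕ)) := by
    rintro w ⟨h3, h4⟩
    by_contra h5
    exact h4 (hS2 w h3 h5)
  have h3 := Set.ncard_le_ncard h2 S.finite_toSet
  rw [Set.ncard_coe_finset] at h3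
  exact_mod_cast h3

end Pool.Agent.Results.MP_12eca1_ag.MixedPolynomials
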