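import Pool.Agent.U405.RS.G5
import Pool.Agent.Results.MP_12eca1_ag.MultiplicativeValues

/-!
# The relative period conjecture for hyperelliptic families over values of multiplicative functions in thin sets

Let `F_1, …, F_k` be positive multiplicative functions of at most polynomial growth which for each `a ≥ 1` are injective at the
powers `p ^ a` of the large primes and at most `M p ^ a` there; for example Euler's function or the sum of the divisors. Let `f_1, …, f_k ∈ ℚ[X]` be monic of even degree `n` with distinct real roots, all different from `0`. For a positive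
integer `t` let `C_j(t)` be the curve `y² = f_j(x) (x - 1/t)`. For EVERY `ℚ`-space `V` of complex numbers of dimension `≤ D`, for
almost all tuples `v` in products of thin sets, the relations of degree `≤ d` with coefficients in `V` between the
periods of the curves `C_j(F_j(v_j))` are those which hold on the whole torsor given by the polarisations.

The starting theorem `MultiplicativeValues` of this problem treats the average over all tuples `m ∈ [1, N]^k`. Here each `m_i` runs
over a thin set: the shifted primes `p + a_i`, `p ≤ x`, for an arbitrary integer `a_i`, or an interval `(u, u + h]` with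
`x^τ ≤ h ≤ x`, where `u ≤ x` and `1 - c / k < τ ≤ 1`; both kinds can be mixed. The tuples of values `(F_1(m_1), …, F_k(m_k))` are taken with large and
uneven multiplicities, so that the size of the exceptional set says nothing about them.

Proof. Own tool `Pool.Agent.U405.RS`. A thin set `S` has at most `B g^ω(n) |S| / n` multiples of `n` for every `n ≤ x^δ` (for the
shifted primes by the Brun-Titchmarsh inequality of the library). Write `m_i = n_i w_i` with `n_i` composed of the primes
`≤ z = x^(1 / J)`, `J` a small multiple of `log log x`. By Rankin's method one has `n_i ≤ x^η` for most `m_i` in `S_i`; and `w_i` has at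
most `J` prime factors and exponents `≤ J`, so that it is determined by `F_i(w_i)` up to `x^o(1)` possibilities. A slab of the
exceptional set is then covered by the fibres over one coordinate, and the saving `X^c` of the exceptional set is larger than the loss
`x^(k (1 - τ))` from the short intervals. The bound for the exceptional tuples is the starting theorem `RelativeHyperelliptic`.
-/

set_option autoImplicit false

open Polynomial

namespace Pool.Agent.Results.MP_12eca1_ag.ThinTuples

open Pool.Agent.U405.RS
open Pool.Agent.Results.MP_12eca1_ag.RelativeHyperelliptic (branch period Fibre entries)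
open Pool.Agent.Results.MP_12eca1_ag.MultiplicativeValues (Surplus)

/-- **Periods of hyperelliptic curves relative to spaces of constants, over thin sets.** Let `f_j ∈ ℚ[X]`, `j < N`, `N ≥ 1`, be monic
of even degree `n` with distinct real roots `a_j`, all different from `0`; `m_j` is the place of `0` among the roots. For all
`D`, `d` there is `c > 0` such that for all `F_1, …, F_N` in the class `PM`, all `U` and, uniformly, all `ℚ`-subspaces `V` of `ℂ` of
dimension at most `D`, in the sense of `ThinAll c F U`
(with a saving of `(log x)^U`, uniformly in the parameter, for almost all `m` in all products `S_1 × ⋯ × S_k` of sets of shifted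
primes `p + a_i`, `p ≤ x`, and intervals `(u, u + h]`, `u ≤ x`, `x^τ ≤ h ≤ x`, whenever `0 < τ ≤ 1`, `k τ > k - c`), with `N` in place of `k`,
all `t_j = F_j(v_j)` are at least `2`, the `1 / t_j` are in the same gaps as `0`, the period matrices of the curves
`y² = f_j(x) (x - 1/t_j)` are on the torsor `Fibre`, and every polynomial of degree `≤ d` with coefficients in `V` which
vanishes at the period matrices vanishes on the torsor (`Surplus`). Euler's function, the sum of the divisors and the identity
are in the class. -/
theorem result :
    (∀ (n N : ℕ), 1 ≤ N → Even n → ∀ (a : Fin N → Fin n → ℝ) (f : Fin N → ℚ[X]),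
      (∀ j, (f j).map (algebraMap ℚ ℝ) = ∏ i, (X - C (a j i))) → ∀ m : Fin N → Fin (n + 1),
      (∀ j, StrictMono (branch (a j) (m j) 0)) → ∀ D d : ℕ, ∃ c : ℝ, 0 < c ∧
      ∀ F : Fin N → ℕ → ℕ, (∀ j, PM (F j)) → ∀ U : ℕ,
        ThinAll c F U (fun (V : Submodule ℚ ℂ) (t : Fin N → ℕ) => (Module.Finite ℚ V ∧ Module.finrank ℚ V ≤ D) →
          (∀ j, 2 ≤ t j) ∧ Surplus a f m d V t)) ∧
    (PM Nat.totient ∧ PM (fun m => ∑ d ∈ m.divisors, d) ∧ PM (fun m => m)) := by
  classical
  refine ⟨fun n N hN hn a f hf m h0 D d => ?_, examplesT⟩
  obtain ⟨c, M, hc, hmain⟩ := Pool.Agent.Results.MP_12eca1_ag.RelativeHyperelliptic.result hn a f hf m h0 D d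
  refine ⟨c, hc, fun F hF U => thinAll_if hN hF hc M
    (fun V : Submodule ℚ ℂ => Module.Finite ℚ V ∧ Module.finrank ℚ V ≤ D)
    (fun (V : Submodule ℚ ℂ) (t : Fin N → ℕ) => Surplus a f m d V t) (fun V hV T hT => ?_) U⟩
  obtain ⟨hV, hVD⟩ := hV
  obtain ⟨S, hS1, hS2⟩ := hmain V hV hVD T hT
  refine le_trans ?_ hS1
  have h2 : {w : Fin N → ℕ | (∀ i, 2 ≤ w i ∧ w i ≤ T) ∧ ¬ Surplus a f m d V w} ⊆ (S : Set (Fin N → ℕ)) := by
    rintro w ⟨h3, h4⟩
    by_contra h5
    exact h4 (hS2 w (fun j => ⟨by have := (h3 j).1; omega, (h3 j).2⟩) h5)
  have h3 := Set.ncard_le_ncard h2 S.finite_toSet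
  rw [Set.ncard_coe_finset] at h3
  exact_mod_cast h3

end Pool.Agent.Results.MP_12eca1_ag.ThinTuples
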